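import Pool.Agent.Helper31.RG.Goals

/-!
# Packet LIFT: codes in zones
-/

namespace Pool.Agent.Helper5.RG.PkLIFT

open Pool.Agent.Helper65.LinSpace Pool.Agent.Helper78 Pool.Agent.Helper78.Mpc
  Pool.Agent.Helper78.Xor Pool.Agent.Helper95.BG Finset Pool.Agent.Helper31.RG

theorem lD_lt {k r p : ℕ} (hp : p < k * (r + 1)) : lD k r p < 2 * k + k * r := by
  have h1 : p / (r + 1) < k := Nat.div_lt_of_lt_mul (by rwa [mul_comm])
  have h2 : p % (r + 1) < r + 1 := Nat.mod_lt _ (Nat.succ_pos _)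
  have h3 : (p / (r + 1) + 1) * r ≤ k * r := Nat.mul_le_mul_right _ h1
  rw [Nat.succ_mul] at h3
  unfold lD ifz
  split_ifs with h
  · omega
  · omega

theorem rD_lt {k r p : ℕ} (hp : p < k * (r + 1)) : rD k r p < 2 * k + k * r := by
  have h1 : p / (r + 1) < k := Nat.div_lt_of_lt_mul (by rwa [mul_comm])
  have h2 : p % (r + 1) < r + 1 := Nat.mod_lt _ (Nat.succ_pos _)
  have h3 : (p / (r + 1) + 1) * r ≤ k * r := Nat.mul_le_mul_right _ h1
  rw [Nat.succ_mul] at h3
  unfold rD ifz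
  split_ifs with h
  · omega
  · omega

theorem sel_lt {k r : ℕ} (hk : 0 < k) (π t : ℕ) : sel k r π t < 2 * k + k * r := by
  unfold sel
  rw [ifz_lt01]
  split_ifs with h
  · exact ifz_lt (lD_lt h) (rD_lt h)
  · omega

theorem div_lt_two {k b : ℕ} (hk : 0 < k) (hb : 0 < b) (x d : ℕ) :
    dig (2 * k * b) x d / b < 2 * k := by
  have h : dig (2 * k * b) x d < 2 * k * b := dig_lt (by positivity) _ _
  exact Nat.div_lt_of_lt_mul (by rwa [mul_comm b])

theorem slot_lt {k b : ℕ} (hk : 0 < k) (hb : 0 < b) (r x : ℕ) {d : ℕ} (hd : d < 2 * k + k * r) :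
    slot k b x d < 2 * k + k * r := by
  unfold slot
  exact ifz_lt hd ((div_lt_two hk hb x d).trans_le (Nat.le_add_right _ _))

theorem ent_digit_lt {k b t : ℕ} (hb : 0 < b) (ht : t < 2 * k) (y : ℕ) :
    t * b + y % b < 2 * k * b := by
  have h1 := Nat.mod_lt y hb
  have h2 : (t + 1) * b ≤ 2 * k * b := Nat.mul_le_mul_right _ ht
  rw [Nat.succ_mul] at h2
  omega

theorem part_b {k r b M : ℕ} (hk : 0 < k) (hb : 0 < b) (hM : 0 < M) (Z x xc π : ℕ) :
    lft k b M Z (2 * k) (yN k r (2 * k * b) x xc π) =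
      yN k r (M * b) (lft k b M Z (2 * k) x) (lft k b M Z (k * r) xc) π := by
  have hN : 0 < 2 * k * b := by positivity
  have hN' : 0 < M * b := by positivity
  refine ext_dig (lft_lt hb hM _ _ _) (yN_lt hN' _ _ _ _ _) fun t ht => ?_
  rw [dig_lft hb hM Z ht, dig_yN hN ht, dig_yN hN' ht]
  have hs := sel_lt (r := r) hk π t
  generalize sel k r π t = s at hs
  rcases Nat.lt_or_ge s (2 * k) with h | h
  · rw [pt_left h, pt_left h, dig_lft hb hM Z h]
  · rw [pt_right h, pt_right h, dig_lft hb hM Z (by omega)]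

theorem dig_chi {k r b : ℕ} (hk : 0 < k) (hb : 0 < b) (x π : ℕ) {t : ℕ} (ht : t < 2 * k) :
    dig (2 * k + k * r) (chi k r b x π) t = slot k b x (sel k r π t) :=
  dig_tab (fun _ _ => slot_lt hk hb _ _ (sel_lt hk _ _)) ht

theorem dig_ent {k r b N : ℕ} (hb : 0 < b) (e c π : ℕ) {t : ℕ} (ht : t < 2 * k) :
    dig (2 * k * b) (ent k r b N e c π) t = t * b + pt k N e c (sel k r π t) % b :=
  dig_tab (fun _ hi => ent_digit_lt hb hi _) ht

theorem dig_subZ {k r M : ℕ} (hM : 0 < M) (Z C i : ℕ) {t : ℕ} (ht : t < 2 * k) :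
    dig M (subZ k r M Z C i) t = if dig (2 * k + k * r) i t < 2 * k
      then dig M Z (dig (2 * k + k * r) i t)
      else dig M C (dig (2 * k + k * r) i t - 2 * k) := by
  unfold subZ
  rw [dig_tab (fun _ _ => ifz_lt (dig_lt hM _ _) (dig_lt hM _ _)) ht, ifz_lt01]

theorem part_c {k r b M : ℕ} (hk : 0 < k) (hb : 0 < b) (hM : 0 < M) (Z C o x π : ℕ) :
    lft k b M (subZ k r M Z C (chi k r b x π)) (2 * k)
      (ent k r b (M * b) (lft k b M Z (2 * k) x) (cutN b M (k * r) C o) π) =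
    yN k r (M * b) (lft k b M Z (2 * k) x) (cutN b M (k * r) C o) π := by
  have hN' : 0 < M * b := by positivity
  refine ext_dig (lft_lt hb hM _ _ _) (yN_lt hN' _ _ _ _ _) fun t ht => ?_
  rw [dig_lft hb hM _ ht, dig_yN hN' ht, dig_ent hb _ _ _ ht]
  have hs := sel_lt (r := r) hk π t
  rw [div_eq_block (Nat.mod_lt _ hb), mod_eq_block (Nat.mod_lt _ hb), dig_subZ hM _ _ _ ht,
    dig_chi hk hb _ _ ht]
  generalize sel k r π t = s at hs
  have key : (if slot k b x s < 2 * k then dig M Z (slot k b x s)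
      else dig M C (slot k b x s - 2 * k)) =
      pt k (M * b) (lft k b M Z (2 * k) x) (cutN b M (k * r) C o) s / b := by
    rcases Nat.lt_or_ge s (2 * k) with h | h
    · have h1 : slot k b x s = dig (2 * k * b) x s / b := by
        unfold slot
        rw [ifz_lt01, if_pos h]
      rw [h1, if_pos (div_lt_two hk hb x s), pt_left h, dig_lft hb hM Z h,
        div_eq_block (Nat.mod_lt _ hb)]
    · have h1 : slot k b x s = s := by
        unfold slot
        rw [ifz_lt01, if_neg (by omega)]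
      rw [h1, if_neg (by omega), pt_right h, dig_cutN hb hM C o (by omega),
        div_eq_block (dig_lt hb _ _)]
  rw [key]
  exact Nat.div_add_mod' _ _

theorem part_f {b M : ℕ} (hb : 0 < b) (hM : 0 < M) (n c : ℕ) (hc : c < (M * b) ^ n) :
    ∃ C < M ^ n, ∃ o < b ^ n, cutN b M n C o = c := by
  have hN' : 0 < M * b := by positivity
  have h1 : ∀ t, dig (M * b) c t / b < M := fun t =>
    Nat.div_lt_of_lt_mul (by rw [mul_comm b]; exact dig_lt hN' _ _)
  have h2 : ∀ t, dig (M * b) c t % b < b := fun t => Nat.mod_lt _ hb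
  refine ⟨tab M n fun t => dig (M * b) c t / b, tab_lt fun t _ => h1 t,
    tab b n fun t => dig (M * b) c t % b, tab_lt fun t _ => h2 t, ?_⟩
  refine ext_dig (cutN_lt hb hM _ _ _) hc fun t ht => ?_
  rw [dig_cutN hb hM _ _ ht, dig_tab (fun t _ => h1 t) ht, dig_tab (fun t _ => h2 t) ht]
  exact Nat.div_add_mod' _ _

theorem part_g {k r b M : ℕ} (hk : 0 < k) (hb : 0 < b) (hM : 0 < M) (Z x c : ℕ)
    (hc : c < (M * b) ^ (k * r))
    (h : ∀ t < k * r, dig (M * b) c t / b =
        dig (M * b) (lft k b M Z (2 * k) x) (2 * (t / r)) / b ∨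
      dig (M * b) c t / b = dig (M * b) (lft k b M Z (2 * k) x) (2 * (t / r) + 1) / b) :
    ∃ xc < (2 * k * b) ^ (k * r), lft k b M Z (k * r) xc = c := by
  have key : ∀ t : ℕ, ∃ y, y < 2 * k ∧ (t < k * r → dig (M * b) c t / b = dig M Z y) := by
    intro t
    by_cases ht : t < k * r
    · have hr : 0 < r := by
        rcases Nat.eq_zero_or_pos r with h0 | h0
        · subst h0
          simp at ht
        · exact h0
      have h1 : t / r < k := Nat.div_lt_of_lt_mul (by rwa [mul_comm])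
      rcases h t ht with h2 | h2
      · refine ⟨_, div_lt_two hk hb x (2 * (t / r)), fun _ => ?_⟩
        rw [h2, dig_lft hb hM Z (by omega), div_eq_block (Nat.mod_lt _ hb)]
      · refine ⟨_, div_lt_two hk hb x (2 * (t / r) + 1), fun _ => ?_⟩
        rw [h2, dig_lft hb hM Z (by omega), div_eq_block (Nat.mod_lt _ hb)]
    · exact ⟨0, by omega, fun h' => (ht h').elim⟩
  choose y hy1 hy2 using key
  have hd : ∀ t, y t * b + dig (M * b) c t % b < 2 * k * b := fun t =>
    ent_digit_lt hb (hy1 t) _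
  refine ⟨tab (2 * k * b) (k * r) fun t => y t * b + dig (M * b) c t % b,
    tab_lt fun t _ => hd t, ?_⟩
  refine ext_dig (lft_lt hb hM _ _ _) hc fun t ht => ?_
  rw [dig_lft hb hM Z ht, dig_tab (fun t _ => hd t) ht, div_eq_block (Nat.mod_lt _ hb),
    mod_eq_block (Nat.mod_lt _ hb), ← hy2 t ht]
  exact Nat.div_add_mod' _ _

theorem thm : Pool.Agent.Helper31.RG.G_LIFT := by
  intro k r b M hk hb hM
  have hN : 0 < 2 * k * b := by positivity
  refine ⟨fun π t _ => sel_lt hk π t, fun Z x xc π => ⟨yN_lt hN _ _ _ _ _,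
    part_b hk hb hM Z x xc π⟩, fun Z C o x π => part_c hk hb hM Z C o x π, fun x π =>
    tab_lt fun _ _ => slot_lt hk hb _ _ (sel_lt hk _ _), fun N e c π =>
    tab_lt fun _ hi => ent_digit_lt hb hi _, fun n c hc => part_f hb hM n c hc,
    fun Z x c hc h => part_g hk hb hM Z x c hc h⟩

end Pool.Agent.Helper5.RG.PkLIFT
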